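import Mathlib

set_option autoImplicit false
open MeasureTheory Filter Topology Set

namespace Run7.h989.Gas

/-- transport of a profile along the direction `(s,1)`. -/
theorem transport (g : ℝ → ℝ) (hg : Measurable g) (C : ℝ) (hC : ∀ y, |g y| ≤ C) (s : ℝ)
    (φ : ℝ × ℝ → ℝ) (hφ : ContDiff ℝ 1 φ) (hc : HasCompactSupport φ) :
    Integrable (fun z : ℝ × ℝ => g (z.1 - s * z.2) * fderiv ℝ φ z (s, 1)) ∧
    ∫ z : ℝ × ℝ, g (z.1 - s * z.2) * fderiv ℝ φ z (s, 1) = 0 := by
  have hdc : Continuous (fun z : ℝ × ℝ => fderiv ℝ φ z (s, 1)) :=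
    (hφ.continuous_fderiv (by norm_num)).clm_apply continuous_const
  have hds : HasCompactSupport (fun z : ℝ × ℝ => fderiv ℝ φ z (s, 1)) := by
    have h1 := hc.fderiv (𝕜 := ℝ)
    exact h1.comp_left (g := fun L : (ℝ × ℝ →L[ℝ] ℝ) => L (s, 1)) (by simp)
  have hdi : Integrable (fun z : ℝ × ℝ => fderiv ℝ φ z (s, 1)) :=
    hdc.integrable_of_hasCompactSupport hds
  have hgm : Measurable (fun z : ℝ × ℝ => g (z.1 - s * z.2)) :=
    hg.comp (by fun_prop)
  have hI : Integrable (fun z : ℝ × ℝ => g (z.1 - s * z.2) * fderiv ℝ φ z (s, 1)) := by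
    refine hdi.bdd_mul (c := C) hgm.aestronglyMeasurable ?_
    exact Eventually.of_forall fun z => by simpa using hC _
  refine ⟨hI, ?_⟩
  -- the sheared function
  let e : ℝ × ℝ ≃ₜ ℝ × ℝ :=
    { toFun := fun z => (z.1 + s * z.2, z.2)
      invFun := fun z => (z.1 - s * z.2, z.2)
      left_inv := fun z => by simp
      right_inv := fun z => by simp
      continuous_toFun := by fun_prop
      continuous_invFun := by fun_prop }
  have hdc2 : Continuous (fun z : ℝ × ℝ => fderiv ℝ φ (z.1 + s * z.2, z.2) (s, 1)) :=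
    hdc.comp e.continuous
  have hds2 : HasCompactSupport (fun z : ℝ × ℝ => fderiv ℝ φ (z.1 + s * z.2, z.2) (s, 1)) :=
    hds.comp_homeomorph e
  have hI2 : Integrable (fun z : ℝ × ℝ => g z.1 * fderiv ℝ φ (z.1 + s * z.2, z.2) (s, 1)) := by
    refine (hdc2.integrable_of_hasCompactSupport hds2).bdd_mul (c := C)
      (hg.comp measurable_fst).aestronglyMeasurable ?_
    exact Eventually.of_forall fun z => by simpa using hC _
  have h1 : ∫ z : ℝ × ℝ, g (z.1 - s * z.2) * fderiv ℝ φ z (s, 1)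
      = ∫ t : ℝ, ∫ x : ℝ, g (x - s * t) * fderiv ℝ φ (x, t) (s, 1) := by
    rw [Measure.volume_eq_prod] at hI ⊢
    exact integral_prod_symm _ hI
  have h2 : ∀ t : ℝ, ∫ x : ℝ, g (x - s * t) * fderiv ℝ φ (x, t) (s, 1)
      = ∫ y : ℝ, g y * fderiv ℝ φ (y + s * t, t) (s, 1) := by
    intro t
    have := integral_add_right_eq_self (μ := (volume : Measure ℝ))
      (fun x : ℝ => g (x - s * t) * fderiv ℝ φ (x, t) (s, 1)) (s * t)
    rw [← this]
    simp
  have h3 : ∫ t : ℝ, ∫ y : ℝ, g y * fderiv ℝ φ (y + s * t, t) (s, 1)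
      = ∫ y : ℝ, ∫ t : ℝ, g y * fderiv ℝ φ (y + s * t, t) (s, 1) := by
    rw [Measure.volume_eq_prod] at hI2
    exact (integral_integral_swap
      (f := fun y t : ℝ => g y * fderiv ℝ φ (y + s * t, t) (s, 1)) hI2).symm
  have h4 : ∀ y : ℝ, ∫ t : ℝ, g y * fderiv ℝ φ (y + s * t, t) (s, 1) = 0 := by
    intro y
    rw [integral_const_mul]
    have hline : ∀ t : ℝ, HasDerivAt (fun t : ℝ => φ (y + s * t, t))
        (fderiv ℝ φ (y + s * t, t) (s, 1)) t := by
      intro t
      have hd : HasFDerivAt φ (fderiv ℝ φ (y + s * t, t)) (y + s * t, t) :=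
        (hφ.differentiable (by norm_num) _).hasFDerivAt
      have hl : HasDerivAt (fun t : ℝ => (y + s * t, t)) (s, (1 : ℝ)) t := by
        have ha : HasDerivAt (fun t : ℝ => y + s * t) s t := by
          simpa using ((hasDerivAt_id t).const_mul s).const_add y
        exact ha.prodMk (hasDerivAt_id t)
      exact HasFDerivAt.comp_hasDerivAt (f := fun t : ℝ => (y + s * t, t)) t hd hl
    have hcl : Topology.IsClosedEmbedding (fun t : ℝ => (y + s * t, t)) := by
      have : Topology.IsClosedEmbedding (fun t : ℝ => (y, t)) := by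
        refine ⟨isEmbedding_prodMkRight y, ?_⟩
        · have : Set.range (fun t : ℝ => (y, t)) = {y} ×ˢ Set.univ := by
            ext z; constructor
            · rintro ⟨t, rfl⟩; simp
            · rintro ⟨h1, -⟩; exact ⟨z.2, by ext <;> simp_all⟩
          rw [this]; exact isClosed_singleton.prod isClosed_univ
      exact e.isClosedEmbedding.comp this
    have hsf : HasCompactSupport (fun t : ℝ => φ (y + s * t, t)) := hc.comp_isClosedEmbedding hcl
    have hsd : HasCompactSupport (fun t : ℝ => fderiv ℝ φ (y + s * t, t) (s, 1)) :=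
      hds.comp_isClosedEmbedding hcl
    have i1 : Integrable (fun t : ℝ => φ (y + s * t, t)) :=
      (hφ.continuous.comp hcl.continuous).integrable_of_hasCompactSupport hsf
    have i2 : Integrable (fun t : ℝ => fderiv ℝ φ (y + s * t, t) (s, 1)) :=
      (hdc.comp hcl.continuous).integrable_of_hasCompactSupport hsd
    rw [integral_eq_zero_of_hasDerivAt_of_integrable hline i2 i1, mul_zero]
  rw [h1]
  simp_rw [h2]
  rw [h3]
  simp_rw [h4]
  simp

/-- translations are continuous in `L¹`. -/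
theorem translation (G : ℝ × ℝ → ℝ) (hG : Integrable G) :
    Tendsto (fun h : ℝ => ∫ z, ‖G (z + (h, 0)) - G z‖) (𝓝 0) (𝓝 0) := by
  have hmp : ∀ h : ℝ, MeasurePreserving (fun z : ℝ × ℝ => z + (h, 0)) volume volume :=
    fun h => measurePreserving_add_right volume (h, 0)
  let T : ℝ → C(ℝ × ℝ, ℝ × ℝ) := fun h => ⟨fun z => z + (h, 0), by fun_prop⟩
  have hT : Continuous T := by
    refine ContinuousMap.continuous_of_continuous_uncurry _ ?_
    show Continuous (fun p : ℝ × (ℝ × ℝ) => p.2 + (p.1, 0))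
    fun_prop
  have hmem : MemLp G 1 volume := memLp_one_iff_integrable.mpr hG
  have hcont : Continuous (fun h : ℝ =>
      Lp.compMeasurePreserving (T h) (hmp h) (hmem.toLp G)) :=
    Continuous.compMeasurePreservingLp continuous_const hT hmp (by norm_num)
  have hlim := (hcont.sub continuous_const : Continuous (fun h : ℝ =>
      Lp.compMeasurePreserving (T h) (hmp h) (hmem.toLp G) - hmem.toLp G)).norm.tendsto 0
  have key : ∀ h : ℝ, ‖Lp.compMeasurePreserving (T h) (hmp h) (hmem.toLp G) - hmem.toLp G‖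
      = ∫ z, ‖G (z + (h, 0)) - G z‖ := by
    intro h
    rw [Lp.toLp_compMeasurePreserving, ← MemLp.toLp_sub, Lp.norm_toLp,
      eLpNorm_one_eq_lintegral_enorm, integral_norm_eq_lintegral_enorm]
    · rfl
    · exact ((hmp h).integrable_comp_of_integrable hG).aestronglyMeasurable.sub
        hG.aestronglyMeasurable
  have h2 := hlim.congr key
  have h3 : ∫ z, ‖G (z + ((0 : ℝ), (0 : ℝ))) - G z‖ = 0 := by
    have : ∀ z : ℝ × ℝ, z + ((0 : ℝ), (0 : ℝ)) = z := fun z => add_zero z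
    simp [this]
  have h5 := (key 0).trans h3
  have h4 : Tendsto (fun h : ℝ => ∫ z, ‖G (z + (h, 0)) - G z‖) (𝓝 0)
      (𝓝 ‖Lp.compMeasurePreserving (T 0) (hmp 0) (hmem.toLp G) - hmem.toLp G‖) := h2
  rw [h5] at h4
  exact h4

noncomputable def chi (y : ℝ) : ℝ := if Int.fract y < 1 / 2 then 1 else 0

theorem chi_meas : Measurable chi :=
  Measurable.ite (measurableSet_lt measurable_fract measurable_const) measurable_const
    measurable_const

theorem chi_cases (y : ℝ) : chi y = 0 ∨ chi y = 1 := by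
  unfold chi; split_ifs <;> simp

theorem chi_abs (y : ℝ) : |chi y| ≤ 1 := by
  rcases chi_cases y with h | h <;> simp [h]

theorem chi_half (y : ℝ) : chi (y + 1 / 2) = 1 - chi y := by
  unfold chi
  have h0 := Int.fract_nonneg y
  have h1 := Int.fract_lt_one y
  have hy : y = ⌊y⌋ + Int.fract y := (Int.floor_add_fract y).symm
  by_cases h : Int.fract y < 1 / 2
  · have : Int.fract (y + 1 / 2) = Int.fract y + 1 / 2 := by
      rw [Int.fract_eq_iff]
      refine ⟨by linarith, by linarith, ⌊y⌋, ?_⟩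
      linarith
    rw [if_neg (by rw [this]; linarith), if_pos h]; norm_num
  · have : Int.fract (y + 1 / 2) = Int.fract y - 1 / 2 := by
      rw [Int.fract_eq_iff]
      refine ⟨by linarith, by linarith, ⌊y⌋ + 1, ?_⟩
      push_cast
      linarith
    rw [if_pos (by rw [this]; linarith), if_neg h]; norm_num

/-- the layered profile -/
noncomputable def X (n : ℕ) (z : ℝ × ℝ) : ℝ := chi (n * (z.1 - 2 * z.2))

theorem X_meas (n : ℕ) : Measurable (X n) := chi_meas.comp (by fun_prop)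

/-- half a period -/
noncomputable def sh (n : ℕ) : ℝ × ℝ := ((1 : ℝ) / (2 * (n : ℝ)), (0 : ℝ))

theorem X_abs (n : ℕ) (z : ℝ × ℝ) : ‖X n z‖ ≤ 1 := by
  unfold X
  simpa using chi_abs (n * (z.1 - 2 * z.2))

theorem X_shift (n : ℕ) (hn : n ≠ 0) (z : ℝ × ℝ) :
    X n (z + sh n) = 1 - X n z := by
  have hn' : (n : ℝ) ≠ 0 := by exact_mod_cast hn
  unfold X sh
  rw [← chi_half]
  congr 1
  simp only [Prod.fst_add, Prod.snd_add]
  field_simp
  ring

theorem X_int (n : ℕ) (G : ℝ × ℝ → ℝ) (hG : Integrable G) :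
    Integrable (fun z => X n z * G z) := by
  refine hG.bdd_mul (c := 1) (X_meas n).aestronglyMeasurable ?_
  exact Eventually.of_forall fun z => X_abs n z

theorem weak (G : ℝ × ℝ → ℝ) (hG : Integrable G) :
    Tendsto (fun n : ℕ => ∫ z, X n z * G z) atTop (𝓝 (∫ z, 1 / 2 * G z)) := by
  have hlim : Tendsto (fun n : ℕ => (1 / (2 * n) : ℝ)) atTop (𝓝 0) := by
    have h1 : Tendsto (fun n : ℕ => (1 / 2 : ℝ) * (1 / (n : ℝ))) atTop (𝓝 ((1 / 2) * 0)) :=
      (tendsto_const_div_atTop_nhds_zero_nat 1).const_mul _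
    rw [mul_zero] at h1
    refine h1.congr fun n => ?_
    rw [one_div_mul_one_div]
  have h2 : Tendsto (fun n : ℕ => 1 / 2 * ∫ z, ‖G (z + sh n) - G z‖) atTop
      (𝓝 (1 / 2 * 0)) := ((translation G hG).comp hlim).const_mul _
  rw [mul_zero] at h2
  rw [tendsto_iff_norm_sub_tendsto_zero]
  refine squeeze_zero' (Eventually.of_forall fun _ => norm_nonneg _) ?_ h2
  filter_upwards [eventually_ne_atTop 0] with n hn
  obtain ⟨h, hh⟩ : ∃ h : ℝ × ℝ, h = sh n := ⟨_, rfl⟩
  rw [← hh]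
  have hGh : Integrable (fun z => G (z + h)) := hG.comp_add_right h
  have e1 : ∫ z, X n z * G z = ∫ z, (1 - X n z) * G (z + h) := by
    rw [← integral_add_right_eq_self (μ := (volume : Measure (ℝ × ℝ))) (fun z => X n z * G z) h]
    refine integral_congr_ae (Eventually.of_forall fun z => ?_)
    simp only
    rw [hh, X_shift n hn z]
  have e2 : ∫ z, (1 - X n z) * G (z + h) = (∫ z, G (z + h)) - ∫ z, X n z * G (z + h) := by
    rw [← integral_sub hGh (X_int n _ hGh)]
    refine integral_congr_ae (Eventually.of_forall fun z => ?_)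
    simp only; ring
  have e3 : ∫ z, G (z + h) = ∫ z, G z :=
    integral_add_right_eq_self (μ := (volume : Measure (ℝ × ℝ))) G h
  have e4 : 2 * (∫ z, X n z * G z) - ∫ z, G z = - ∫ z, X n z * (G (z + h) - G z) := by
    have : ∫ z, X n z * (G (z + h) - G z) = (∫ z, X n z * G (z + h)) - ∫ z, X n z * G z := by
      rw [← integral_sub (X_int n _ hGh) (X_int n _ hG)]
      refine integral_congr_ae (Eventually.of_forall fun z => ?_)
      simp only; ring
    rw [this]
    linarith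
  have e5 : (∫ z, X n z * G z) - ∫ z, 1 / 2 * G z
      = - (1 / 2) * ∫ z, X n z * (G (z + h) - G z) := by
    rw [integral_const_mul]; linarith
  rw [e5, norm_mul]
  have e6 : ‖∫ z, X n z * (G (z + h) - G z)‖ ≤ ∫ z, ‖G (z + h) - G z‖ := by
    refine (norm_integral_le_integral_norm _).trans ?_
    refine integral_mono_of_nonneg (Eventually.of_forall fun _ => norm_nonneg _)
      (hGh.sub hG).norm (Eventually.of_forall fun z => ?_)
    simp only [norm_mul]
    exact mul_le_of_le_one_left (norm_nonneg _) (X_abs n z)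
  have : ‖(-(1 / 2) : ℝ)‖ = 1 / 2 := by norm_num
  rw [this]
  exact mul_le_mul_of_nonneg_left e6 (by norm_num)

/-- the transported profile integrates to zero against `φ_t + 2 φ_x`. -/
theorem X_transport (n : ℕ) (φ : ℝ × ℝ → ℝ) (hφ : ContDiff ℝ 1 φ) (hc : HasCompactSupport φ) :
    Integrable (fun z : ℝ × ℝ => X n z * fderiv ℝ φ z (2, 1)) ∧
    ∫ z : ℝ × ℝ, X n z * fderiv ℝ φ z (2, 1) = 0 := by
  have := transport (fun y => chi (n * y)) (chi_meas.comp (by fun_prop)) 1
    (fun y => chi_abs _) 2 φ hφ hc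
  exact this

theorem const_dt (φ : ℝ × ℝ → ℝ) (hφ : ContDiff ℝ 1 φ) (hc : HasCompactSupport φ) :
    Integrable (fun z : ℝ × ℝ => fderiv ℝ φ z (0, 1)) ∧
    ∫ z : ℝ × ℝ, fderiv ℝ φ z (0, 1) = 0 := by
  have := transport (fun _ => 1) measurable_const 1 (fun y => by simp) 0 φ hφ hc
  simpa using this

theorem const_2 (φ : ℝ × ℝ → ℝ) (hφ : ContDiff ℝ 1 φ) (hc : HasCompactSupport φ) :
    Integrable (fun z : ℝ × ℝ => fderiv ℝ φ z (2, 1)) ∧
    ∫ z : ℝ × ℝ, fderiv ℝ φ z (2, 1) = 0 := by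
  have := transport (fun _ => 1) measurable_const 1 (fun y => by simp) 2 φ hφ hc
  simpa using this

theorem dir (φ : ℝ × ℝ → ℝ) (z : ℝ × ℝ) :
    fderiv ℝ φ z (2, 1) = 2 * fderiv ℝ φ z (1, 0) + fderiv ℝ φ z (0, 1) := by
  have : ((2, 1) : ℝ × ℝ) = (2 : ℝ) • (1, 0) + (0, 1) := by ext <;> simp
  rw [this, map_add, map_smul, smul_eq_mul]

/-- the general computation: `(a + b X) φ_t + (c + 2 b X) φ_x` integrates to zero. -/
theorem balance (n : ℕ) (a b c : ℝ) (φ : ℝ × ℝ → ℝ) (hφ : ContDiff ℝ 1 φ)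
    (hc : HasCompactSupport φ) :
    ∫ z : ℝ × ℝ, ((a + b * X n z) * fderiv ℝ φ z (0, 1)
      + (c + 2 * b * X n z) * fderiv ℝ φ z (1, 0)) = 0 := by
  obtain ⟨i1, e1⟩ := X_transport n φ hφ hc
  obtain ⟨i2, e2⟩ := const_dt φ hφ hc
  obtain ⟨i3, e3⟩ := const_2 φ hφ hc
  have h : ∀ z : ℝ × ℝ, ((a + b * X n z) * fderiv ℝ φ z (0, 1)
      + (c + 2 * b * X n z) * fderiv ℝ φ z (1, 0))
      = b * (X n z * fderiv ℝ φ z (2, 1)) + ((a - c / 2) * fderiv ℝ φ z (0, 1)
        + c / 2 * fderiv ℝ φ z (2, 1)) := by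
    intro z
    rw [dir]; ring
  simp_rw [h]
  have j1 := i1.const_mul b
  have j2 := i2.const_mul (a - c / 2)
  have j3 := i3.const_mul (c / 2)
  have k : ∫ z : ℝ × ℝ, (b * (X n z * fderiv ℝ φ z (2, 1)) + ((a - c / 2) * fderiv ℝ φ z (0, 1)
        + c / 2 * fderiv ℝ φ z (2, 1)))
      = (∫ z : ℝ × ℝ, b * (X n z * fderiv ℝ φ z (2, 1)))
        + ∫ z : ℝ × ℝ, ((a - c / 2) * fderiv ℝ φ z (0, 1) + c / 2 * fderiv ℝ φ z (2, 1)) :=
    integral_add j1 (j2.add j3)
  have k2 : ∫ z : ℝ × ℝ, ((a - c / 2) * fderiv ℝ φ z (0, 1) + c / 2 * fderiv ℝ φ z (2, 1))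
      = (∫ z : ℝ × ℝ, (a - c / 2) * fderiv ℝ φ z (0, 1))
        + ∫ z : ℝ × ℝ, c / 2 * fderiv ℝ φ z (2, 1) := integral_add j2 j3
  rw [k, k2, integral_const_mul, integral_const_mul, integral_const_mul, e1, e2, e3]
  simp

/-- passing from the half plane to the plane. -/
theorem half (F : ℝ × ℝ → ℝ) (φ : ℝ × ℝ → ℝ)
    (hs : tsupport φ ⊆ {z : ℝ × ℝ | 0 < z.2}) (hF : ∀ z, fderiv ℝ φ z = 0 → F z = 0) :
    ∫ z in {z : ℝ × ℝ | 0 < z.2}, F z = ∫ z, F z := by
  refine setIntegral_eq_integral_of_forall_compl_eq_zero fun z hz => hF z ?_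
  have : z ∉ tsupport φ := fun h => hz (hs h)
  have h2 : z ∉ tsupport (fderiv ℝ φ) := fun h => this (tsupport_fderiv_subset ℝ h)
  exact image_eq_zero_of_notMem_tsupport h2

end Run7.h989.Gas
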